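import Mathlib

set_option autoImplicit false

/-!
# The shift graph on infinite subsets of `ℕ`: definitions for MP_bd9785_lc
-/

namespace Pool.Agent.X212.Shift

/-- The space of infinite subsets of `ℕ`, given by their characteristic functions, as a subspace
of the Cantor space. Its topology and its Borel `σ`-algebra are inherited from `ℕ → Bool`. -/
abbrev InfSub : Type := {y : ℕ → Bool // ∀ n, ∃ m, n ≤ m ∧ y m = true}

/-- The least element. -/
noncomputable def mn (y : InfSub) : ℕ := sInf {n | y.1 n = true}

/-- `z` is the shift `S(y) = y \ {min y}` of `y`. -/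
def IsShift (y z : InfSub) : Prop := ∀ n, z.1 n = true ↔ (y.1 n = true ∧ n ≠ mn y)

/-- Adjacency in the shift graph. -/
def Adj (y z : InfSub) : Prop := y ≠ z ∧ (IsShift y z ∨ IsShift z y)

/-- The induced subgraph of the shift graph on `A` has a Borel colouring with finitely many
colours, that is, its Borel chromatic number is finite. -/
def FiniteBorelChromatic (A : Set InfSub) : Prop :=
  ∃ (k : ℕ) (c : A → Fin k), Measurable c ∧ ∀ y z : A, Adj y.1 z.1 → c y ≠ c z

end Pool.Agent.X212.Shift
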