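import Mathlib
import Pool.Agent.W923.BH.Tri

set_option autoImplicit false

/-!
# Every fibre of the closed set `PS` is nonempty
-/

namespace Pool.Agent.X212.Shift

open Set Pool.Agent.W923.BH

/-- The glued evaluation. -/
noncomputable def glu2 (F : ℕ → ℕ → ℕ) (t : List ℕ) (i : ℕ) : ℕ := by
  classical
  exact if de i = t then
    (if ∃ n, F n (en (t ++ [n])) = 0 then (lst fun n => F n (en (t ++ [n])) = 0) + 1 else 0)
  else if t <+: de i then F ((de i).getD t.length 0) i else 0

open Classical in
theorem glu2_self (F : ℕ → ℕ → ℕ) (t : List ℕ) : glu2 F t (en t) =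
    if ∃ n, F n (en (t ++ [n])) = 0 then (lst fun n => F n (en (t ++ [n])) = 0) + 1 else 0 := by
  unfold glu2
  rw [if_pos (de_en t)]

theorem glu2_child (F : ℕ → ℕ → ℕ) {t u : List ℕ} {n : ℕ} (h : t ++ [n] <+: u) :
    glu2 F t (en u) = F n (en u) := by
  obtain ⟨h1, h2, h3⟩ := getD_child h
  unfold glu2
  rw [de_en, if_neg h2, if_pos h1, h3]

theorem glu2_out (F : ℕ → ℕ → ℕ) {t u : List ℕ} (h : ¬ t <+: u) : glu2 F t (en u) = 0 := by
  unfold glu2
  rw [de_en, if_neg (fun h2 => h (by rw [h2])), if_neg h]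

theorem glu2_mem {z : ℕ → ℕ} {t : List ℕ} (hz : z (en t) = 0) (F : ℕ → ℕ → ℕ)
    (h : ∀ n, F n ∈ Ev z z (t ++ [n])) : glu2 F t ∈ Ev z z t := by
  classical
  intro u
  constructor
  · intro hu
    rcases InT_cases hu with rfl | ⟨n, hn⟩
    · have e : ∀ m, glu2 F u (en (u ++ [m])) = F m (en (u ++ [m])) :=
        fun m => glu2_child _ List.prefix_rfl
      refine ⟨fun _ h2 m => ?_, fun _ m hm => ?_, fun k hk => absurd hk (by omega)⟩
      · rw [glu2_self] at h2
        rw [e]
        intro h3
        rw [if_pos ⟨m, h3⟩] at h2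
        omega
      · rw [glu2_self] at hm
        by_cases h3 : ∃ n, F n (en (u ++ [n])) = 0
        · rw [if_pos h3, Nat.add_right_cancel_iff] at hm
          subst hm
          refine ⟨?_, fun m hm => ?_⟩
          · rw [e]
            exact lst_spec h3
          · rw [e]
            exact lst_min (P := fun n => F n (en (u ++ [n])) = 0) hm
        · rw [if_neg h3] at hm
          omega
    · have h1 := (h n u).1 ((InT_child hz hn).1 hu)
      have e1 := glu2_child F hn
      have e2 : ∀ m, glu2 F t (en (u ++ [m])) = F n (en (u ++ [m])) :=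
        fun m => glu2_child _ (hn.trans (List.prefix_append _ _))
      unfold Loc at h1 ⊢
      simp only [e1, e2]
      exact h1
  · intro hu
    by_cases h1 : t <+: u
    · by_cases h2 : u = t
      · exact absurd (h2 ▸ InT_self z u) (h2 ▸ hu)
      · have h3 := child_getD h1 h2
        rw [glu2_child _ h3]
        exact (h _ u).2 (fun h4 => hu ((InT_child hz h3).2 h4))
    · exact glu2_out _ h1

theorem leaf_mem {z : ℕ → ℕ} {t : List ℕ} (hz : z (en t) ≠ 0) : ∃ E, E ∈ Ev z z t := by
  classical
  obtain ⟨k, hk⟩ := Nat.exists_eq_succ_of_ne_zero hz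
  refine ⟨fun i => if i = en t then (if bas k z then 0 else 1) else 0, ?_⟩
  intro u
  rw [InT_leaf hz]
  constructor
  · rintro rfl
    refine ⟨fun h => absurd h hz, fun h => absurd h hz, fun k' hk' => ?_⟩
    obtain rfl : k = k' := by
      rw [hk] at hk'
      omega
    simp only [if_true]
    split_ifs with h
    · exact ⟨by simpa using h, by omega⟩
    · exact ⟨by simpa using h, by omega⟩
  · intro h
    exact if_neg (fun h2 => h (en_inj.1 h2))

/-- Every code has an infinite branch or an evaluation. -/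
theorem fibre (z : ℕ → ℕ) : ∃ w, (z, w) ∈ PS := by
  classical
  by_cases h0 : ∃ E, E ∈ Ev z z []
  · obtain ⟨E, hE⟩ := h0
    refine ⟨fun i => if i = 0 then 1 else E (i - 1), Or.inr ⟨by simp, ?_⟩⟩
    have : Sh (fun i => if i = 0 then 1 else E (i - 1)) = E := by
      funext i; simp [Sh]
    exact this.symm ▸ hE
  · have step : ∀ t : List ℕ, (¬ ∃ E, E ∈ Ev z z t) → ∃ n, ¬ ∃ E, E ∈ Ev z z (t ++ [n]) := by
      intro t ht
      by_contra hcon
      push Not at hcon
      choose F hF using hcon
      by_cases hz : z (en t) = 0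
      · exact ht ⟨_, glu2_mem hz F hF⟩
      · exact ht (leaf_mem hz)
    let S := {t : List ℕ // ¬ ∃ E, E ∈ Ev z z t}
    let nxt : S → S := fun s => ⟨s.1 ++ [(step s.1 s.2).choose], (step s.1 s.2).choose_spec⟩
    let s : ℕ → S := fun n => nxt^[n] ⟨[], h0⟩
    let b : ℕ → ℕ := fun n => (step (s n).1 (s n).2).choose
    have hs : ∀ n, (s (n + 1)).1 = (s n).1 ++ [b n] := by
      intro n
      show (nxt^[n + 1] ⟨[], h0⟩).1 = _
      rw [Function.iterate_succ_apply']
    have hb : ∀ n, ini b n = (s n).1 := by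
      intro n
      induction n with
      | zero => rfl
      | succ n ih => rw [ini_succ', ih, hs]
    refine ⟨fun i => if i = 0 then 0 else b (i - 1), Or.inl ⟨by simp, fun n => ?_⟩⟩
    have : Sh (fun i => if i = 0 then 0 else b (i - 1)) = b := by
      funext i; simp [Sh]
    show z (en (ini (Sh (fun i => if i = 0 then 0 else b (i - 1))) n)) = 0
    rw [this, hb]
    by_contra hne
    exact (s n).2 (leaf_mem hne)

end Pool.Agent.X212.Shift
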