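import Mathlib
import Pool.Agent.X212.Shift.Defs
import Pool.Agent.X212.Shift.Fibre

set_option autoImplicit false

namespace Pool.Agent.X212.Shift

open Set Filter Topology Pool.Agent.W923.BH

/-- `m` is an element of `y` such that the next element of `y` is smaller than some `w n` with
`n ≤ m`. -/
def Bad (w : ℕ → ℕ) (y : InfSub) (m : ℕ) : Prop :=
  y.1 m = true ∧ ∃ n ≤ m, ∃ i, m < i ∧ i < w n ∧ y.1 i = true

/-- `y` dominates `w`. -/
def Good (w : ℕ → ℕ) (y : InfSub) : Prop := ∀ m, ¬ Bad w y m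

/-- The pairs `(x, y)` such that `y` dominates some element of the fibre `C_x`. -/
def PC (C : Set ((ℕ → ℕ) × (ℕ → ℕ))) : Set ((ℕ → ℕ) × InfSub) :=
  {p | ∃ w, (p.1, w) ∈ C ∧ Good w p.2}

theorem tendsto_nat {X : Type*} [TopologicalSpace X] [DiscreteTopology X] {f : ℕ → X} {a : X}
    (h : Tendsto f atTop (𝓝 a)) : ∀ᶠ n in atTop, f n = a := by
  rw [nhds_discrete] at h
  exact tendsto_pure.mp h

theorem isClosed_PC {C : Set ((ℕ → ℕ) × (ℕ → ℕ))} (hC : IsClosed C) : IsClosed (PC C) := by
  have : SecondCountableTopology InfSub := TopologicalSpace.Subtype.secondCountableTopology _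
  apply IsSeqClosed.isClosed
  rintro p q hp hpq
  choose w hwC hwG using hp
  have hx : Tendsto (fun n => (p n).1) atTop (𝓝 q.1) := (continuous_fst.tendsto _).comp hpq
  have hy : ∀ i, ∀ᶠ n in atTop, (p n).2.1 i = q.2.1 i := by
    intro i
    apply tendsto_nat
    have h1 : Continuous fun r : (ℕ → ℕ) × InfSub => r.2.1 i :=
      (continuous_apply i).comp (continuous_subtype_val.comp continuous_snd)
    exact (h1.tendsto _).comp hpq
  have hbd : ∀ j, ∃ c, ∀ n, w n j ≤ c := by
    intro j
    obtain ⟨m, hm, hm1⟩ := q.2.2 j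
    obtain ⟨i, hi, hi1⟩ := q.2.2 (m + 1)
    have h1 : ∀ᶠ n in atTop, w n j ≤ i := by
      filter_upwards [hy m, hy i] with n h2 h3
      by_contra hcon
      push Not at hcon
      exact hwG n m ⟨h2.trans hm1, j, hm, i, by omega, hcon, h3.trans hi1⟩
    obtain ⟨N, hN⟩ := eventually_atTop.mp h1
    refine ⟨i + ∑ k ∈ Finset.range N, w k j, fun n => ?_⟩
    by_cases hn : N ≤ n
    · exact (hN n hn).trans (by omega)
    · have h2 : w n j ≤ ∑ k ∈ Finset.range N, w k j :=
        Finset.single_le_sum (f := fun k => w k j) (fun _ _ => Nat.zero_le _)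
          (Finset.mem_range.mpr (by omega))
      omega
  choose c hc using hbd
  have hK : IsCompact (Set.pi univ fun j => Iic (c j)) :=
    isCompact_univ_pi fun j => (finite_Iic (c j)).isCompact
  obtain ⟨v, -, φ, hφ, hv⟩ := hK.tendsto_subseq (x := w) fun n j _ => hc j n
  refine ⟨v, ?_, ?_⟩
  · have h1 : Tendsto (fun n => ((p (φ n)).1, w (φ n))) atTop (𝓝 (q.1, v)) :=
      (hx.comp hφ.tendsto_atTop).prodMk_nhds hv
    exact hC.mem_of_tendsto h1 (Eventually.of_forall fun n => hwC (φ n))
  · rintro m ⟨h1, n, hn, i, hi, hiw, h2⟩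
    have h3 : ∀ᶠ k in atTop, w (φ k) n = v n :=
      tendsto_nat (((continuous_apply n).tendsto _).comp hv)
    have h4 := hφ.tendsto_atTop.eventually (hy m)
    have h5 := hφ.tendsto_atTop.eventually (hy i)
    obtain ⟨k, h6, h7, h8⟩ := (h3.and (h4.and h5)).exists
    exact hwG (φ k) m ⟨h7.trans h1, n, hn, i, hi, by rw [h6]; exact hiw, h8.trans h2⟩

/-! ### No uniformization -/

/-- The part of `PS` of evaluations with value false. -/
def PSf : Set ((ℕ → ℕ) × (ℕ → ℕ)) := PS ∩ {p | p.2 0 = 1 ∧ p.2 (en [] + 1) ≠ 0}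

theorem isClosed_PSf : IsClosed PSf := by
  refine isClosed_PS.inter ?_
  have c2 : ∀ i, Continuous fun q : (ℕ → ℕ) × (ℕ → ℕ) => q.2 i := fun i =>
    (continuous_apply i).comp continuous_snd
  exact IsClosed.inter (clopenP (c2 0) (· = 1)).1 (clopenP (c2 (en [] + 1)) (· ≠ 0)).1

theorem no_unif (f : (ℕ → ℕ) → InfSub) (hf : Measurable f) : ¬ ∀ x, (x, f x) ∈ PC PS := by
  intro hcon
  have hm : Measurable fun x : ℕ → ℕ => (x, f x) := measurable_id.prodMk hf
  have hX : MeasurableSet {x | (x, f x) ∈ PC PSf} :=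
    hm (isClosed_PC isClosed_PSf).measurableSet
  obtain ⟨c, hc1, hc2⟩ := coded_of_measurable hX
  have hbr : ∀ w, (c, w) ∈ PS → w 0 = 1 ∧ Sh w ∈ Ev c c [] := by
    rintro w (⟨-, h2⟩ | h)
    · obtain ⟨n, hn⟩ := hc1 (Sh w)
      exact absurd (h2 n) hn
    · exact h
  have key : c ∉ {x | (x, f x) ∈ PC PSf} := by
    rintro ⟨w, ⟨hw, h1, h2⟩, hG⟩
    have h3 := (hc2 c _ (hbr w hw).2).2 ⟨w, ⟨hw, h1, h2⟩, hG⟩
    exact h2 h3
  obtain ⟨w, hw, hG⟩ := hcon c
  obtain ⟨h1, h2⟩ := hbr w hw
  apply key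
  refine ⟨w, ⟨hw, h1, ?_⟩, hG⟩
  intro h3
  exact key ((hc2 c _ h2).1 h3)

/-! ### Measurability -/

variable {w : ℕ → ℕ}

theorem meas_coord (m : ℕ) : MeasurableSet {y : InfSub | y.1 m = true} := by
  have h : Measurable fun y : InfSub => y.1 m :=
    (measurable_pi_apply m).comp measurable_subtype_coe
  exact h (measurableSet_singleton true)

theorem meas_Bad (w : ℕ → ℕ) (m : ℕ) : MeasurableSet {y : InfSub | Bad w y m} := by
  have : {y : InfSub | Bad w y m} = {y | y.1 m = true} ∩
      ⋃ n, ⋃ i, ({y : InfSub | n ≤ m ∧ m < i ∧ i < w n} ∩ {y | y.1 i = true}) := by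
    ext y
    simp only [Bad, mem_setOf_eq, mem_inter_iff, mem_iUnion]
    constructor
    · rintro ⟨h1, n, hn, i, h2, h3, h4⟩
      exact ⟨h1, n, i, ⟨hn, h2, h3⟩, h4⟩
    · rintro ⟨h1, n, i, ⟨hn, h2, h3⟩, h4⟩
      exact ⟨h1, n, hn, i, h2, h3, h4⟩
  rw [this]
  exact (meas_coord m).inter (MeasurableSet.iUnion fun n => MeasurableSet.iUnion fun i =>
    (MeasurableSet.const _).inter (meas_coord i))

theorem meas_comp {β : Type*} [MeasurableSpace β] {h : InfSub → ℕ} (hh : Measurable h)
    {g : ℕ → InfSub → β} (hg : ∀ n, Measurable (g n)) : Measurable fun y => g (h y) y := by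
  intro s hs
  have : (fun y => g (h y) y) ⁻¹' s = ⋃ n, (h ⁻¹' {n} ∩ g n ⁻¹' s) := by
    ext y
    simp only [mem_preimage, mem_iUnion, mem_inter_iff, mem_singleton_iff]
    constructor
    · intro h1
      exact ⟨h y, rfl, h1⟩
    · rintro ⟨n, rfl, h1⟩
      exact h1
  rw [this]
  exact MeasurableSet.iUnion fun n => (hh (measurableSet_singleton n)).inter (hg n hs)

theorem meas_mn : Measurable mn := measurable_lst (P := fun (y : InfSub) n => y.1 n = true)
  fun n => meas_coord n

/-! ### The run colouring -/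

section run
variable (Q : InfSub → ℕ → Bool)

/-- The first element of `y` whose mark differs from the mark of `min y`. -/
noncomputable def ch (y : InfSub) : ℕ := lst fun m => y.1 m = true ∧ Q y m ≠ Q y (mn y)

/-- The number of elements of `y` below `M`. -/
def cnt (M : ℕ) (y : InfSub) : ℕ := ∑ i ∈ Finset.range M, (if y.1 i = true then 1 else 0)

/-- The run colouring. -/
noncomputable def rc (y : InfSub) : Bool × Bool :=
  (Q y (mn y), decide (cnt (ch Q y) y % 2 = 0))

theorem meas_rc (hQ : ∀ m, Measurable fun y => Q y m) : Measurable (rc Q) := by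
  have h1 : Measurable fun y : InfSub => Q y (mn y) := meas_comp meas_mn (g := fun m y => Q y m) hQ
  have h2 : Measurable (ch Q) := by
    refine measurable_lst (P := fun (y : InfSub) m => y.1 m = true ∧ Q y m ≠ Q y (mn y))
      fun m => ?_
    refine (meas_coord m).inter ?_
    exact (measurableSet_eq_fun (hQ m) h1).compl
  have h3 : ∀ M, Measurable (cnt M) := by
    intro M
    refine Finset.measurable_sum _ fun i _ => ?_
    exact Measurable.ite (meas_coord i) measurable_const measurable_const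
  have h4 : Measurable fun y : InfSub => cnt (ch Q y) y := meas_comp h2 (g := cnt) h3
  have h5 : Measurable fun n : ℕ => decide (n % 2 = 0) := measurable_from_nat
  exact h1.prodMk (h5.comp h4)

theorem mn_mem (y : InfSub) : y.1 (mn y) = true := by
  obtain ⟨m, -, hm⟩ := y.2 0
  exact lst_spec (P := fun n => y.1 n = true) ⟨m, hm⟩

theorem mn_le {y : InfSub} {n : ℕ} (h : y.1 n = true) : mn y ≤ n :=
  lst_le (P := fun n => y.1 n = true) h

theorem shift_lt {y z : InfSub} (h : IsShift y z) : mn y < mn z := by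
  have h1 := (h (mn z)).1 (mn_mem z)
  exact lt_of_le_of_ne (mn_le h1.1) (Ne.symm h1.2)

theorem rc_ne (hloc : ∀ y z : InfSub, IsShift y z → ∀ m, z.1 m = true → Q z m = Q y m)
    {y z : InfSub} (h : IsShift y z)
    (hy : ∃ m, y.1 m = true ∧ Q y m ≠ Q y (mn y)) : rc Q y ≠ rc Q z := by
  intro heq
  have h1 : Q y (mn y) = Q z (mn z) := congrArg Prod.fst heq
  have h2 : Q z (mn z) = Q y (mn z) := hloc y z h _ (mn_mem z)
  have hch : ch Q y = ch Q z := by
    unfold ch
    congr 1
    funext m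
    apply propext
    constructor
    · rintro ⟨h3, h4⟩
      have h5 : m ≠ mn y := fun h6 => h4 (by rw [h6])
      have h6 : z.1 m = true := (h m).2 ⟨h3, h5⟩
      refine ⟨h6, ?_⟩
      rw [hloc y z h m h6, ← h1]
      exact h4
    · rintro ⟨h3, h4⟩
      refine ⟨((h m).1 h3).1, ?_⟩
      rw [← hloc y z h m h3, h1]
      exact h4
  have hlt : mn y < ch Q y := by
    have h3 : y.1 (ch Q y) = true ∧ Q y (ch Q y) ≠ Q y (mn y) :=
      lst_spec (P := fun m => y.1 m = true ∧ Q y m ≠ Q y (mn y)) hy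
    refine lt_of_le_of_ne (mn_le h3.1) fun h4 => h3.2 ?_
    rw [← h4]
  have hcnt : cnt (ch Q y) y = cnt (ch Q y) z + 1 := by
    unfold cnt
    rw [← Finset.add_sum_erase _ _ (Finset.mem_range.mpr hlt),
      ← Finset.add_sum_erase (Finset.range (ch Q y)) _ (Finset.mem_range.mpr hlt)]
    rw [if_pos (mn_mem y), if_neg (fun h3 => ((h _).1 h3).2 rfl), zero_add, add_comm]
    congr 1
    apply Finset.sum_congr rfl
    intro i hi
    have h3 : i ≠ mn y := Finset.ne_of_mem_erase hi
    have h4 : z.1 i = true ↔ y.1 i = true := ⟨fun h5 => ((h i).1 h5).1, fun h5 => (h i).2 ⟨h5, h3⟩⟩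
    simp only [h4]
  have h6 : decide (cnt (ch Q y) y % 2 = 0) = decide (cnt (ch Q z) z % 2 = 0) :=
    congrArg Prod.snd heq
  rw [← hch, decide_eq_decide, hcnt] at h6
  omega

end run

/-! ### The colouring of the sections -/

open Classical in
/-- The mark: being bad. -/
noncomputable def Q1 (w : ℕ → ℕ) (y : InfSub) (m : ℕ) : Bool := decide (Bad w y m)

/-- A fast sequence. -/
def fast (w : ℕ → ℕ) : ℕ → ℕ
  | 0 => 0
  | j + 1 => fast w j + 1 + ∑ i ∈ Finset.range (fast w j), w i

theorem fast_lt (w : ℕ → ℕ) (j : ℕ) : fast w j < fast w (j + 1) := by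
  show fast w j < fast w j + 1 + ∑ i ∈ Finset.range (fast w j), w i
  omega

theorem fast_mono (w : ℕ → ℕ) : StrictMono (fast w) := strictMono_nat_of_lt_succ (fast_lt w)

theorem lt_fast {w : ℕ → ℕ} {n j : ℕ} (h : n < fast w j) : w n < fast w (j + 1) := by
  show w n < fast w j + 1 + ∑ i ∈ Finset.range (fast w j), w i
  have : w n ≤ ∑ i ∈ Finset.range (fast w j), w i :=
    Finset.single_le_sum (f := w) (fun _ _ => Nat.zero_le _) (Finset.mem_range.mpr h)
  omega

/-- The number of the interval. -/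
def idx (w : ℕ → ℕ) (m : ℕ) : ℕ := Nat.findGreatest (fun j => fast w j ≤ m) m

theorem idx_le (w : ℕ → ℕ) (m : ℕ) : fast w (idx w m) ≤ m :=
  Nat.findGreatest_spec (P := fun j => fast w j ≤ m) (Nat.zero_le m) (Nat.zero_le _)

theorem lt_idx (w : ℕ → ℕ) (m : ℕ) : m < fast w (idx w m + 1) := by
  by_contra h
  push Not at h
  have h1 : idx w m + 1 ≤ m := ((fast_mono w).id_le _).trans h
  have h2 := Nat.le_findGreatest (P := fun j => fast w j ≤ m) h1 h
  unfold idx at h2
  omega

theorem idx_mono (w : ℕ → ℕ) {m n : ℕ} (h : m ≤ n) : idx w m ≤ idx w n := by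
  have h1 := idx_le w m
  have h2 := lt_idx w n
  have h3 : fast w (idx w m) < fast w (idx w n + 1) := by omega
  have := (fast_mono w).lt_iff_lt.1 h3
  omega

/-- The mark: parity of the interval. -/
def Q2 (w : ℕ → ℕ) (_ : InfSub) (m : ℕ) : Bool := decide (idx w m % 2 = 0)

/-- `y` has infinitely many elements that are not bad. -/
def InfGood (w : ℕ → ℕ) (y : InfSub) : Prop := ∀ n, ∃ m, n ≤ m ∧ y.1 m = true ∧ ¬ Bad w y m

theorem bad_shift {w : ℕ → ℕ} {y z : InfSub} (h : IsShift y z) {m : ℕ} (hm : z.1 m = true) :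
    Bad w z m ↔ Bad w y m := by
  have hlt : mn y < m := lt_of_lt_of_le (shift_lt h) (mn_le hm)
  constructor
  · rintro ⟨h1, n, hn, i, h2, h3, h4⟩
    exact ⟨((h m).1 h1).1, n, hn, i, h2, h3, ((h i).1 h4).1⟩
  · rintro ⟨h1, n, hn, i, h2, h3, h4⟩
    exact ⟨hm, n, hn, i, h2, h3, (h i).2 ⟨h4, by omega⟩⟩

theorem infGood_shift {w : ℕ → ℕ} {y z : InfSub} (h : IsShift y z) :
    InfGood w y ↔ InfGood w z := by
  constructor
  · intro hy n
    obtain ⟨m, h1, h2, h3⟩ := hy (n + mn y + 1)
    have h4 : z.1 m = true := (h m).2 ⟨h2, by omega⟩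
    exact ⟨m, by omega, h4, fun h5 => h3 ((bad_shift h h4).1 h5)⟩
  · intro hz n
    obtain ⟨m, h1, h2, h3⟩ := hz n
    exact ⟨m, h1, ((h m).1 h2).1, fun h5 => h3 ((bad_shift h h2).2 h5)⟩

/-- If almost all elements are bad then both parities of intervals occur. -/
theorem both_parities {w : ℕ → ℕ} {y : InfSub} (h : ¬ InfGood w y) (b : Bool) :
    ∃ m, y.1 m = true ∧ Q2 w y m = b := by
  by_contra hcon
  push Not at hcon
  unfold InfGood at h
  push Not at h
  obtain ⟨n0, hn0⟩ := h
  obtain ⟨m0, hm0, hym0⟩ := y.2 n0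
  -- all later elements lie in the same interval
  have hpar : ∀ m, y.1 m = true → (idx w m % 2 = 0 ↔ b = false) := by
    intro m hm
    have h1 := hcon m hm
    unfold Q2 at h1
    cases b <;> simpa using h1
  have key : ∀ m, m0 ≤ m → y.1 m = true → idx w m = idx w m0 := by
    intro m
    induction m using Nat.strong_induction_on with
    | _ m ih =>
      intro h1 h2
      rcases Nat.eq_or_lt_of_le h1 with h3 | h3
      · rw [h3]
      -- the predecessor of `m` in `y`
      let p := Nat.findGreatest (fun j => j < m ∧ y.1 j = true) m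
      have hp : p < m ∧ y.1 p = true :=
        Nat.findGreatest_spec (P := fun j => j < m ∧ y.1 j = true) h1 ⟨h3, hym0⟩
      have hp0 : m0 ≤ p := Nat.le_findGreatest (P := fun j => j < m ∧ y.1 j = true) h1 ⟨h3, hym0⟩
      have hgap : ∀ i, p < i → y.1 i = true → m ≤ i := by
        intro i hi hyi
        by_contra h4
        push Not at h4
        have := Nat.le_findGreatest (P := fun j => j < m ∧ y.1 j = true) h4.le ⟨h4, hyi⟩
        omega
      have h5 := ih p hp.1 hp0 hp.2
      have hbad : Bad w y p := hn0 p (by omega) hp.2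
      obtain ⟨-, n, hn, i, h6, h7, h8⟩ := hbad
      have h9 : m < w n := lt_of_le_of_lt (hgap i h6 h8) h7
      have h10 : n < fast w (idx w p + 1) := lt_of_le_of_lt hn (lt_idx w p)
      have h11 : w n < fast w (idx w p + 2) := lt_fast h10
      have h12 : fast w (idx w m) < fast w (idx w p + 2) := by
        have := idx_le w m; omega
      have h13 := (fast_mono w).lt_iff_lt.1 h12
      have h14 := idx_mono w hp.1.le
      have h15 := hpar m h2
      have h16 := hpar p hp.2
      have h17 : idx w m ≠ idx w p + 1 := by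
        intro h18
        have : idx w m % 2 = 0 ↔ idx w p % 2 = 0 := h15.trans h16.symm
        omega
      omega
  obtain ⟨m, hm, hym⟩ := y.2 (max m0 (fast w (idx w m0 + 1)))
  have h1 := key m (le_of_max_le_left hm) hym
  have h2 := lt_idx w m
  rw [h1] at h2
  have := le_of_max_le_right hm
  omega

open Classical in
/-- The colouring. -/
noncomputable def col (w : ℕ → ℕ) (y : InfSub) : Bool × Bool × Bool :=
  if InfGood w y then (true, rc (Q1 w) y) else (false, rc (Q2 w) y)

theorem meas_InfGood (w : ℕ → ℕ) : MeasurableSet {y : InfSub | InfGood w y} := by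
  have : {y : InfSub | InfGood w y} = ⋂ n, ⋃ m, ({y : InfSub | n ≤ m} ∩
      ({y | y.1 m = true} ∩ {y | Bad w y m}ᶜ)) := by
    ext y
    simp only [InfGood, mem_setOf_eq, mem_iInter, mem_iUnion, mem_inter_iff, mem_compl_iff]
  rw [this]
  exact MeasurableSet.iInter fun n => MeasurableSet.iUnion fun m =>
    (MeasurableSet.const _).inter ((meas_coord m).inter (meas_Bad w m).compl)

theorem meas_col (w : ℕ → ℕ) : Measurable (col w) := by
  classical
  have h1 : Measurable (rc (Q1 w)) := by
    apply meas_rc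
    intro m
    have : (fun y => Q1 w y m) = fun y => if y ∈ {y : InfSub | Bad w y m} then true else false := by
      funext y
      simp only [Q1, mem_setOf_eq]
      by_cases h : Bad w y m <;> simp [h]
    rw [this]
    exact Measurable.ite (meas_Bad w m) measurable_const measurable_const
  have h2 : Measurable (rc (Q2 w)) := meas_rc _ fun m => measurable_const
  exact Measurable.ite (meas_InfGood w) (measurable_const.prodMk h1) (measurable_const.prodMk h2)

theorem col_ne {w : ℕ → ℕ} {y z : InfSub} (h : IsShift y z) (hy : ∃ m, Bad w y m) :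
    col w y ≠ col w z := by
  classical
  unfold col
  by_cases hG : InfGood w y
  · rw [if_pos hG, if_pos ((infGood_shift h).1 hG)]
    intro heq
    refine rc_ne (Q1 w) ?_ h ?_ (congrArg Prod.snd heq)
    · intro y z h m hm
      unfold Q1
      rw [decide_eq_decide]
      exact bad_shift h hm
    · by_cases hb : Bad w y (mn y)
      · obtain ⟨m, -, h1, h2⟩ := hG 0
        refine ⟨m, h1, ?_⟩
        simp [Q1, hb, h2]
      · obtain ⟨m, hm⟩ := hy
        refine ⟨m, hm.1, ?_⟩
        simp [Q1, hb, hm]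
  · rw [if_neg hG, if_neg (fun h1 => hG ((infGood_shift h).2 h1))]
    intro heq
    refine rc_ne (Q2 w) (fun _ _ _ _ _ => rfl) h ?_ (congrArg Prod.snd heq)
    obtain ⟨m, h1, h2⟩ := both_parities hG (!(Q2 w y (mn y)))
    refine ⟨m, h1, ?_⟩
    rw [h2]
    simp

/-- The complement of `B`. -/
def P : Set ((ℕ → ℕ) × InfSub) := PC PS

theorem finite_sections (x : ℕ → ℕ) : FiniteBorelChromatic {y | (x, y) ∈ Pᶜ} := by
  obtain ⟨w, hw⟩ := fibre x
  let e : (Bool × Bool × Bool) ≃ Fin (Fintype.card (Bool × Bool × Bool)) := Fintype.equivFin _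
  refine ⟨_, fun y => e (col w y.1), ?_, ?_⟩
  · exact (measurable_of_countable e).comp ((meas_col w).comp measurable_subtype_coe)
  · rintro ⟨y, hy⟩ ⟨z, hz⟩ ⟨-, h⟩
    have hbad : ∀ y : InfSub, (x, y) ∈ Pᶜ → ∃ m, Bad w y m := by
      intro y hy
      by_contra hcon
      push Not at hcon
      exact hy ⟨w, hw, hcon⟩
    intro heq
    have heq' : col w y = col w z := e.injective heq
    rcases h with h | h
    · exact col_ne h (hbad y hy) heq'
    · exact col_ne h (hbad z hz) heq'.symm

theorem main : ∃ B : Set ((ℕ → ℕ) × InfSub), MeasurableSet B ∧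
    (∀ x, FiniteBorelChromatic {y | (x, y) ∈ B}) ∧
    ¬ ∃ f : (ℕ → ℕ) → InfSub, Measurable f ∧ ∀ x, (x, f x) ∉ B := by
  refine ⟨Pᶜ, (isClosed_PC isClosed_PS).measurableSet.compl, finite_sections, ?_⟩
  rintro ⟨f, hf, h⟩
  exact no_unif f hf fun x => not_not.1 (h x)

end Pool.Agent.X212.Shift
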